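import Pool.Agent.U860.Hemi.Data

/-!
# Kernel checks for the generalized quadrangle of order (9, 3)
-/

namespace Pool.Agent.U860.Hemi

/-- the bit `n` of `m` -/
def tb (m n : ℕ) : Bool := Nat.beq ((m >>> n) % 2) 1

/-- `f i` for all `i < n` -/
def all (n : ℕ) (f : ℕ → Bool) : Bool := Nat.rec true (fun i r => and (f i) r) n

/-- the number of `i < n` with `f i` -/
def cnt (n : ℕ) (f : ℕ → Bool) : ℕ := Nat.rec 0 (fun i r => r + (bif f i then 1 else 0)) n

/-- the points of the line `l` -/
def M (l : ℕ) : ℕ := (T >>> (280 * l)) % 2 ^ 280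

/-- the points collinear with `p` -/
def N (p : ℕ) : ℕ := (TN >>> (280 * p)) % 2 ^ 280

/-- the permutation -/
def gv (l : ℕ) : ℕ := (G >>> (6 * l)) % 64

/-- its inverse -/
def hv (l : ℕ) : ℕ := (GI >>> (6 * l)) % 64

/-- zero or a power of two -/
def pow0 (x : ℕ) : Bool := or (Nat.beq x 0) (Nat.beq x (2 ^ Nat.log2 x))

/-- a power of two -/
def pow1 (x : ℕ) : Bool := Nat.beq x (2 ^ Nat.log2 x)

theorem c_line : all 112 (fun l => Nat.beq (cnt 280 (fun p => tb T (280 * l + p))) 10) = true := by
  decide +kernel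

theorem c_point : all 280 (fun p => Nat.beq (cnt 112 (fun l => tb T (280 * l + p))) 4) = true := by
  decide +kernel

theorem c_hemi : all 280 (fun p => Nat.beq (cnt 56 (fun l => tb T (280 * l + p))) 2) = true := by
  decide +kernel

theorem c_two : all 112 (fun l => all l (fun m => pow0 (Nat.land (M l) (M m)))) = true := by
  decide +kernel

/-- the union of the sets `f i`, `i < n` -/
def orf (n : ℕ) (f : ℕ → ℕ) : ℕ := Nat.rec 0 (fun i r => Nat.lor (f i) r) n

theorem c_N : all 280 (fun p => Nat.beq (N p)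
    (orf 112 (fun m => bif tb T (280 * m + p) then M m else 0))) = true := by
  decide +kernel

theorem c_gq : all 280 (fun p => all 112 (fun l =>
    or (tb T (280 * l + p)) (pow1 (Nat.land (N p) (M l))))) = true := by
  decide +kernel

theorem c_perm : all 56 (fun l => and (Nat.beq (hv (gv l)) l) (and (Nat.beq (gv (hv l)) l)
    (and (Nat.ble (gv l) 55) (Nat.ble (hv l) 55)))) = true := by
  decide +kernel

theorem c_adj : all 56 (fun l => all l (fun m =>
    Bool.not (xor (Nat.beq (Nat.land (M l) (M m)) 0) (Nat.beq (Nat.land (M (gv l)) (M (gv m))) 0)))) = true := by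
  decide +kernel

end Pool.Agent.U860.Hemi
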