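import Pool.Agent.U860.Hemi.Check

/-!
# From the kernel checks to statements about finite types
-/

namespace Pool.Agent.U860.Hemi

theorem all_iff {n : ℕ} {f : ℕ → Bool} : all n f = true ↔ ∀ i < n, f i = true := by
  induction n with
  | zero => simp [all]
  | succ n ih =>
    have h : all (n + 1) f = and (f n) (all n f) := rfl
    rw [h, Bool.and_eq_true, ih]
    constructor
    · rintro ⟨h1, h2⟩ i hi
      rcases Nat.lt_succ_iff_lt_or_eq.1 hi with h3 | h3
      · exact h2 i h3
      · rw [h3]; exact h1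
    · intro h2
      exact ⟨h2 n (Nat.lt_succ_self n), fun i hi => h2 i (hi.trans (Nat.lt_succ_self n))⟩

theorem tb_eq (m n : ℕ) : tb m n = m.testBit n := by
  rw [Nat.testBit_eq_decide_div_mod_eq, ← Nat.shiftRight_eq_div_pow]
  unfold tb
  by_cases h : (m >>> n) % 2 = 1
  · rw [h]; rfl
  · have h2 : Nat.beq ((m >>> n) % 2) 1 = false := by
      rw [Bool.eq_false_iff]
      intro h3
      exact h (Nat.eq_of_beq_eq_true h3)
    rw [h2]
    simp [h]

theorem beq_iff {a b : ℕ} : Nat.beq a b = true ↔ a = b :=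
  ⟨Nat.eq_of_beq_eq_true, fun h => by rw [h]; exact Nat.beq_refl b⟩

theorem card_eq (n : ℕ) (f : ℕ → Bool) : Nat.card {p : Fin n // f p = true} = cnt n f := by
  rw [Nat.card_eq_fintype_card, Fintype.card_subtype, Finset.card_filter,
    Fin.sum_univ_eq_sum_range (fun i => if f i = true then 1 else 0) n]
  induction n with
  | zero => rfl
  | succ n ih =>
    rw [Finset.sum_range_succ, ih]
    have h : cnt (n + 1) f = cnt n f + (bif f n then 1 else 0) := rfl
    rw [h]
    cases f n <;> rfl

theorem M_bit {l p : ℕ} (hp : p < 280) : (M l).testBit p = tb T (280 * l + p) := by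
  rw [tb_eq]
  unfold M
  rw [Nat.testBit_mod_two_pow, Nat.testBit_shiftRight]
  simp [hp]

theorem N_bit {l p : ℕ} (hp : p < 280) : (N l).testBit p = tb TN (280 * l + p) := by
  rw [tb_eq]
  unfold N
  rw [Nat.testBit_mod_two_pow, Nat.testBit_shiftRight]
  simp [hp]

theorem orf_bit (n : ℕ) (f : ℕ → ℕ) (q : ℕ) :
    (orf n f).testBit q = true ↔ ∃ i < n, (f i).testBit q = true := by
  induction n with
  | zero =>
    have h : orf 0 f = 0 := rfl
    rw [h]
    simp
  | succ n ih =>
    have h : orf (n + 1) f = f n ||| orf n f := rfl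
    rw [h, Nat.testBit_or, Bool.or_eq_true, ih]
    constructor
    · rintro (h1 | ⟨i, hi, h1⟩)
      · exact ⟨n, Nat.lt_succ_self n, h1⟩
      · exact ⟨i, hi.trans (Nat.lt_succ_self n), h1⟩
    · rintro ⟨i, hi, h1⟩
      rcases Nat.lt_succ_iff_lt_or_eq.1 hi with h3 | h3
      · exact Or.inr ⟨i, h3, h1⟩
      · rw [h3] at h1; exact Or.inl h1

/-- the incidence relation -/
def I (p : Fin 280) (l : Fin 112) : Prop := tb T (280 * l + p) = true

theorem two_points {p q : Fin 280} {l m : Fin 112} (hpq : p ≠ q) (h1 : I p l) (h2 : I q l)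
    (h3 : I p m) (h4 : I q m) : l = m := by
  by_contra hlm
  have key : ∀ a b : Fin 112, (b : ℕ) < a → I p a → I q a → I p b → I q b → False := by
    intro a b hab h1 h2 h3 h4
    have h5 := all_iff.1 (all_iff.1 c_two a a.2) b hab
    unfold pow0 at h5
    have e1 : (Nat.land (M a) (M b)).testBit p = true := by
      show (M a &&& M b).testBit p = true
      rw [Nat.testBit_and, M_bit p.2, M_bit p.2, h1, h3]; rfl
    have e2 : (Nat.land (M a) (M b)).testBit q = true := by
      show (M a &&& M b).testBit q = true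
      rw [Nat.testBit_and, M_bit q.2, M_bit q.2, h2, h4]; rfl
    rcases (Bool.or_eq_true _ _).mp h5 with h6 | h6
    · rw [beq_iff.1 h6] at e1
      simp at e1
    · rw [beq_iff.1 h6, Nat.testBit_two_pow] at e1 e2
      have e3 := of_decide_eq_true e1
      have e4 := of_decide_eq_true e2
      exact hpq (Fin.ext (e3.symm.trans e4))
  rcases lt_trichotomy (l : ℕ) m with h | h | h
  · exact key m l h h3 h4 h1 h2
  · exact hlm (Fin.ext h)
  · exact key l m h h1 h2 h3 h4

theorem N_iff (p q : Fin 280) : (N p).testBit q = true ↔ ∃ m : Fin 112, I p m ∧ I q m := by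
  have h1 := beq_iff.1 (all_iff.1 c_N p p.2)
  rw [h1, orf_bit]
  constructor
  · rintro ⟨i, hi, h2⟩
    cases h3 : tb T (280 * i + p) with
    | true =>
      rw [h3] at h2
      refine ⟨⟨i, hi⟩, h3, ?_⟩
      have h4 : (M i).testBit q = true := h2
      rw [M_bit q.2] at h4
      exact h4
    | false =>
      rw [h3] at h2
      have h4 : (0 : ℕ).testBit q = true := h2
      simp at h4
  · rintro ⟨m, h2, h3⟩
    refine ⟨m, m.2, ?_⟩
    have h4 : tb T (280 * (m : ℕ) + p) = true := h2
    rw [h4]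
    show (M m).testBit q = true
    rw [M_bit q.2]
    exact h3

theorem gq (p : Fin 280) (l : Fin 112) (h : ¬ I p l) :
    ∃! q, I q l ∧ ∃ m, I p m ∧ I q m := by
  have h1 := all_iff.1 (all_iff.1 c_gq p p.2) l l.2
  rcases (Bool.or_eq_true _ _).mp h1 with h2 | h2
  · exact absurd h2 h
  · obtain ⟨k, hk⟩ : ∃ k, k = Nat.log2 (Nat.land (N p) (M l)) := ⟨_, rfl⟩
    have h3 : Nat.land (N p) (M l) = 2 ^ k := by rw [hk]; exact beq_iff.1 h2
    have h4 : ∀ q : ℕ, ((N p).testBit q && (M l).testBit q) = decide (k = q) := by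
      intro q
      rw [← Nat.testBit_two_pow, ← h3]
      exact (Nat.testBit_and _ _ _).symm
    have hk280 : k < 280 := by
      have h5 : Nat.land (N p) (M l) ≤ M l := Nat.and_le_right
      have h6 : M l < 2 ^ 280 := Nat.mod_lt _ (by positivity)
      rw [h3] at h5
      exact (Nat.pow_lt_pow_iff_right (by norm_num)).1 (lt_of_le_of_lt h5 h6)
    refine ⟨⟨k, hk280⟩, ?_, ?_⟩
    · have h5 := h4 k
      rw [decide_eq_true (rfl : k = k), Bool.and_eq_true] at h5
      refine ⟨?_, (N_iff p ⟨k, hk280⟩).1 h5.1⟩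
      have h6 := h5.2
      rw [M_bit hk280] at h6
      exact h6
    · rintro q ⟨h5, h6⟩
      have h7 := h4 q
      rw [(N_iff p q).2 h6, M_bit q.2] at h7
      have h8 : tb T (280 * (l : ℕ) + q) = true := h5
      rw [h8] at h7
      exact Fin.ext (of_decide_eq_true h7.symm).symm

theorem line_card (l : Fin 112) : Nat.card {p : Fin 280 // I p l} = 10 :=
  (card_eq 280 (fun p => tb T (280 * l + p))).trans (beq_iff.1 (all_iff.1 c_line l l.2))

theorem point_card (p : Fin 280) : Nat.card {l : Fin 112 // I p l} = 4 :=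
  (card_eq 112 (fun l => tb T (280 * l + p))).trans (beq_iff.1 (all_iff.1 c_point p p.2))

theorem hemi_card (p : Fin 280) :
    Nat.card {l : Fin 112 // l ∈ {l : Fin 112 | (l : ℕ) < 56} ∧ I p l} = 2 := by
  rw [← beq_iff.1 (all_iff.1 c_hemi p p.2), ← card_eq 56 (fun l => tb T (280 * l + p))]
  refine Nat.card_congr ⟨fun x => ⟨⟨x.1, x.2.1⟩, x.2.2⟩,
    fun x => ⟨⟨x.1, x.1.2.trans (by norm_num)⟩, x.1.2, x.2⟩, ?_, ?_⟩
  · intro x; rfl
  · intro x; rfl

theorem meet_iff {l m : Fin 112} (hlm : (m : ℕ) < l) :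
    (∃ p, I p l ∧ I p m) ↔ Nat.land (M l) (M m) ≠ 0 := by
  constructor
  · rintro ⟨p, h1, h2⟩ h3
    have e1 : (Nat.land (M l) (M m)).testBit p = true := by
      show (M l &&& M m).testBit p = true
      rw [Nat.testBit_and, M_bit p.2, M_bit p.2, h1, h2]; rfl
    rw [h3] at e1
    simp at e1
  · intro h
    obtain ⟨p, hp⟩ := Nat.exists_testBit_of_ne_zero h
    have h0 : (Nat.land (M l) (M m)).testBit p = ((M l).testBit p && (M m).testBit p) :=
      Nat.testBit_and _ _ _
    rw [h0, Bool.and_eq_true] at hp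
    have hp280 : p < 280 := by
      by_contra h1
      have h2 : M l < 2 ^ p := lt_of_lt_of_le (Nat.mod_lt _ (by positivity))
        (Nat.pow_le_pow_right (by norm_num) (not_lt.1 h1))
      rw [Nat.testBit_lt_two_pow h2] at hp
      exact absurd hp.1 (by simp)
    rw [M_bit hp280, M_bit hp280] at hp
    exact ⟨⟨p, hp280⟩, hp.1, hp.2⟩

/-- the permutation of the hemisystem -/
def perm : Fin 56 ≃ Fin 56 where
  toFun l := ⟨gv l, by
    have h := all_iff.1 c_perm l l.2
    simp only [Bool.and_eq_true] at h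
    exact Nat.lt_succ_of_le (Nat.le_of_ble_eq_true h.2.2.1)⟩
  invFun l := ⟨hv l, by
    have h := all_iff.1 c_perm l l.2
    simp only [Bool.and_eq_true] at h
    exact Nat.lt_succ_of_le (Nat.le_of_ble_eq_true h.2.2.2)⟩
  left_inv l := by
    have h := all_iff.1 c_perm l l.2
    simp only [Bool.and_eq_true] at h
    exact Fin.ext (beq_iff.1 h.1)
  right_inv l := by
    have h := all_iff.1 c_perm l l.2
    simp only [Bool.and_eq_true] at h
    exact Fin.ext (beq_iff.1 h.2.1)

end Pool.Agent.U860.Hemi
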